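import Mathlib

set_option autoImplicit false

/-!
# Uniform `k`-balls with `k > n/2` do not force vertex transitivity

For every `ε > 0` there is a finite connected graph of diameter `2` on `n` vertices all of whose
balls of radius `1` have the same number `k` of vertices, `n/2 < k < n`, `(1-ε) n ≤ k`, and are
pairwise isomorphic as rooted graphs, but which is not vertex transitive.
-/

namespace Pool.Agent.Results.MP_409260_co.NotTransitive

/-- The (vertex set of the) ball `B(v,r)`: all `u` at graph distance at most `r` from `v`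
(`edist` is the graph distance, `⊤` between different components). -/
def ball {V : Type*} (G : SimpleGraph V) (v : V) (r : ℕ) : Set V := {u | G.edist u v ≤ r}

/-- The subgraphs induced on `B(v,r)` and `B(w,r)` are isomorphic as rooted graphs: some graph
isomorphism sends the root `v` to the root `w`. -/
def RootedIso {V : Type*} (G : SimpleGraph V) (r : ℕ) (v w : V) : Prop :=
  ∃ φ : G.induce (ball G v r) ≃g G.induce (ball G w r),
    ∀ x : ball G v r, (x : V) = v → (φ x : V) = w

/-- All balls of radius `r` have exactly `k` vertices and are pairwise isomorphic as rooted graphs. -/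
def UniformBallsOfRadius {V : Type*} (G : SimpleGraph V) (r k : ℕ) : Prop :=
  (∀ v, (ball G v r).ncard = k) ∧ ∀ v w, RootedIso G r v w

/-- `G` has uniform `k`-balls. -/
def UniformBalls {V : Type*} (G : SimpleGraph V) (k : ℕ) : Prop :=
  ∃ r : ℕ, UniformBallsOfRadius G r k

/-- For any two vertices some automorphism maps one to the other. -/
def VertexTransitive {V : Type*} (G : SimpleGraph V) : Prop :=
  ∀ u v, ∃ φ : G ≃g G, φ u = v

/-! ### The base graph on 18 vertices -/

/-- adjacency of the base graph: two orbits `{0..8}`, `{9..17}` of `Z_9`. -/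
def adj0 (x y : Fin 18) : Bool :=
  let d := (y.val + 18 - x.val) % 9
  let e := (x.val + 18 - y.val) % 9
  if x.val < 9 then
    if y.val < 9 then d == 1 || d == 3 || d == 6 || d == 8
    else d == 0 || d == 1 || d == 3 || d == 5 || d == 6
  else
    if y.val < 9 then e == 0 || e == 1 || e == 3 || e == 5 || e == 6
    else d == 2 || d == 3 || d == 6 || d == 7

lemma adj0_symm : ∀ x y, adj0 x y = adj0 y x := by decide +kernel

lemma adj0_irrefl : ∀ x, adj0 x x = false := by decide +kernel

/-- closed neighbourhood -/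
def nb (x y : Fin 18) : Bool := (x == y) || adj0 x y

lemma nb_symm : ∀ x y, nb x y = nb y x := by decide +kernel

lemma nb_self : ∀ x, nb x x = true := by decide +kernel

/-- enumeration of the closed neighbourhood of `0` resp. `9` -/
def base : Bool → Fin 10 → ℕ
  | true => ![0, 1, 3, 6, 8, 9, 10, 12, 14, 15]
  | false => ![9, 4, 12, 15, 8, 0, 16, 6, 11, 3]

/-- enumeration of the closed neighbourhood of `x`, root first, with the same adjacency pattern for
all `x`. -/
def psi (x : Fin 18) (a : Fin 10) : Fin 18 :=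
  let b := base (decide (x.val < 9)) a
  let c := x.val % 9
  if h : b < 9 then ⟨(b + c) % 9, by omega⟩ else ⟨9 + (b + c) % 9, by omega⟩

/-- inverse of `psi x` on the closed neighbourhood of `x` -/
def idx (x z : Fin 18) : Fin 10 :=
  ((List.finRange 10).find? (fun a => psi x a == z)).getD 0

lemma psi_root : ∀ x, psi x 0 = x := by decide +kernel

lemma idx_root : ∀ x, idx x x = 0 := by decide +kernel

lemma psi_nb : ∀ x a, nb x (psi x a) = true := by decide +kernel

lemma psi_idx : ∀ x z, nb x z = true → psi x (idx x z) = z := by decide +kernel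

lemma idx_psi : ∀ x a, idx x (psi x a) = a := by decide +kernel

lemma psi_adj : ∀ x a b, adj0 (psi x a) (psi x b) = adj0 (psi 0 a) (psi 0 b) := by decide +kernel

/-- the isomorphism between closed neighbourhoods of `x` and `y` -/
def phi (x y z : Fin 18) : Fin 18 := psi y (idx x z)

lemma phi_nb (x y z : Fin 18) : nb y (phi x y z) = true := psi_nb _ _

lemma phi_phi (x y z : Fin 18) (h : nb x z = true) : phi y x (phi x y z) = z := by
  unfold phi; rw [idx_psi, psi_idx x z h]

lemma phi_adj (x y z w : Fin 18) (hz : nb x z = true) (hw : nb x w = true) :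
    adj0 (phi x y z) (phi x y w) = adj0 z w := by
  unfold phi
  rw [psi_adj, ← psi_adj x, psi_idx x z hz, psi_idx x w hw]

lemma phi_root (x y : Fin 18) : phi x y x = y := by
  unfold phi; rw [idx_root, psi_root]

/-- nonadjacent vertices have a common neighbour -/
lemma common : ∀ x y, nb x y = false → ∃ z, adj0 x z = true ∧ adj0 z y = true := by decide +kernel

lemma card_non : ∀ x, (Finset.univ.filter fun z => nb x z = false).card = 8 := by decide +kernel

/-- common non-neighbours -/
def cn (x u : Fin 18) : Finset (Fin 18) :=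
  Finset.univ.filter fun w => nb x w = false ∧ nb u w = false

lemma cn_zero : ∀ u, nb 0 u = false → (cn 0 u).card ≠ 4 := by decide +kernel

lemma cn_nine : nb 9 13 = false ∧ (cn 9 13).card = 4 := by decide +kernel

/-! ### The join of `t` copies -/

/-- The join of `t` copies of the base graph. -/
def joinGraph (t : ℕ) : SimpleGraph (Fin t × Fin 18) where
  Adj p q := p.1 ≠ q.1 ∨ adj0 p.2 q.2 = true
  symm := ⟨fun p q h => by
    rcases h with h | h
    · exact Or.inl h.symm
    · exact Or.inr (by rw [adj0_symm]; exact h)⟩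
  loopless := ⟨fun p h => by
    rcases h with h | h
    · exact h rfl
    · rw [adj0_irrefl] at h; exact absurd h (by simp)⟩

variable {t : ℕ}

lemma adj_iff (p q : Fin t × Fin 18) :
    (joinGraph t).Adj p q ↔ p.1 ≠ q.1 ∨ adj0 p.2 q.2 = true := Iff.rfl

lemma edist_le_one_iff {V : Type*} (G : SimpleGraph V) (u v : V) :
    G.edist u v ≤ 1 ↔ u = v ∨ G.Adj u v := by
  constructor
  · intro h
    rcases Order.le_one_iff.mp h with h | h
    · exact Or.inl (SimpleGraph.edist_eq_zero_iff.mp h)
    · exact Or.inr (SimpleGraph.edist_eq_one_iff_adj.mp h)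
  · rintro (h | h)
    · rw [h, SimpleGraph.edist_self]; exact bot_le
    · exact (SimpleGraph.edist_eq_one_iff_adj.mpr h).le

lemma mem_ball_one (p q : Fin t × Fin 18) :
    q ∈ ball (joinGraph t) p 1 ↔ q.1 ≠ p.1 ∨ nb p.2 q.2 = true := by
  unfold ball
  rw [Set.mem_ofPred_eq, Nat.cast_one, edist_le_one_iff, adj_iff]
  unfold nb
  rw [Bool.or_eq_true, beq_iff_eq, adj0_symm p.2 q.2]
  constructor
  · rintro (h | h | h)
    · exact Or.inr (Or.inl (by rw [h]))
    · exact Or.inl h
    · exact Or.inr (Or.inr h)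
  · rintro (h | h | h)
    · exact Or.inr (Or.inl h)
    · by_cases hh : q.1 = p.1
      · exact Or.inl (Prod.ext hh h.symm)
      · exact Or.inr (Or.inl hh)
    · exact Or.inr (Or.inr h)

lemma ball_ncard (p : Fin t × Fin 18) : (ball (joinGraph t) p 1).ncard = 18 * t - 8 := by
  classical
  have h1 : (ball (joinGraph t) p 1)ᶜ
      = ((Finset.univ.filter fun z => nb p.2 z = false).image fun z => (p.1, z) : Finset (Fin t × Fin 18)) := by
    ext ⟨l, z⟩
    simp only [Set.mem_compl_iff, mem_ball_one, Finset.coe_image, Finset.coe_filter, Finset.mem_univ,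
      true_and, Set.mem_image, Set.mem_ofPred_eq, Prod.mk.injEq, not_or, not_not, Bool.not_eq_true]
    constructor
    · rintro ⟨h1, h2⟩; exact ⟨z, h2, h1.symm, rfl⟩
    · rintro ⟨a, h1, h2, rfl⟩; exact ⟨h2.symm, h1⟩
  have h2 : ((ball (joinGraph t) p 1)ᶜ).ncard = 8 := by
    rw [h1, Set.ncard_coe_finset, Finset.card_image_of_injective _ (fun a b h => by simpa using h), card_non]
  have h3 := Set.ncard_add_ncard_compl (ball (joinGraph t) p 1)
  rw [h2, Nat.card_prod, Nat.card_fin, Nat.card_fin] at h3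
  omega

lemma sw {a b x : Fin t} (h : x ≠ a) : Equiv.swap a b x ≠ b := fun hh =>
  h ((Equiv.swap a b).injective (by rw [hh, Equiv.swap_apply_left]))

/-- underlying map of the rooted isomorphism -/
def mp (p q : Fin t × Fin 18) (z : Fin t × Fin 18) : Fin t × Fin 18 :=
  if z.1 = p.1 then (q.1, phi p.2 q.2 z.2) else (Equiv.swap p.1 q.1 z.1, z.2)

lemma mp_mem (p q z : Fin t × Fin 18) (hz : z ∈ ball (joinGraph t) p 1) :
    mp p q z ∈ ball (joinGraph t) q 1 := by
  rw [mem_ball_one] at *
  unfold mp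
  split_ifs with h
  · exact Or.inr (phi_nb _ _ _)
  · exact Or.inl (sw h)

lemma mp_mp (p q z : Fin t × Fin 18) (hz : z ∈ ball (joinGraph t) p 1) :
    mp q p (mp p q z) = z := by
  rw [mem_ball_one] at hz
  by_cases h : z.1 = p.1
  · have hz' : nb p.2 z.2 = true := by
      rcases hz with hz | hz
      · exact absurd h hz
      · exact hz
    have e1 : mp p q z = (q.1, phi p.2 q.2 z.2) := by unfold mp; rw [if_pos h]
    rw [e1]
    unfold mp
    rw [if_pos rfl]
    exact Prod.ext h.symm (phi_phi _ _ _ hz')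
  · have e1 : mp p q z = (Equiv.swap p.1 q.1 z.1, z.2) := by unfold mp; rw [if_neg h]
    rw [e1]
    have h2 : Equiv.swap p.1 q.1 z.1 ≠ q.1 := sw h
    unfold mp
    rw [if_neg h2]
    refine Prod.ext ?_ rfl
    change Equiv.swap q.1 p.1 (Equiv.swap p.1 q.1 z.1) = z.1
    rw [Equiv.swap_comm q.1 p.1, Equiv.swap_apply_self]

lemma mp_adj (p q z w : Fin t × Fin 18) (hz : z ∈ ball (joinGraph t) p 1)
    (hw : w ∈ ball (joinGraph t) p 1) :
    (joinGraph t).Adj (mp p q z) (mp p q w) ↔ (joinGraph t).Adj z w := by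
  rw [mem_ball_one] at hz hw
  rw [adj_iff, adj_iff]
  by_cases h1 : z.1 = p.1
  · by_cases h2 : w.1 = p.1
    · have hz' : nb p.2 z.2 = true := hz.resolve_left (fun hh => hh h1)
      have hw' : nb p.2 w.2 = true := hw.resolve_left (fun hh => hh h2)
      unfold mp
      rw [if_pos h1, if_pos h2]
      simp only [ne_eq, not_true_eq_false, false_or]
      rw [phi_adj _ _ _ _ hz' hw', h1, h2]
      simp
    · have h3 : Equiv.swap p.1 q.1 w.1 ≠ q.1 := sw h2
      unfold mp
      rw [if_pos h1, if_neg h2]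
      constructor
      · intro _; exact Or.inl (by rw [h1]; exact fun hh => h2 hh.symm)
      · intro _; exact Or.inl (fun hh => h3 hh.symm)
  · have h3 : Equiv.swap p.1 q.1 z.1 ≠ q.1 := sw h1
    by_cases h2 : w.1 = p.1
    · unfold mp
      rw [if_neg h1, if_pos h2]
      constructor
      · intro _; exact Or.inl (by rw [h2]; exact h1)
      · intro _; exact Or.inl h3
    · unfold mp
      rw [if_neg h1, if_neg h2]
      simp only [ne_eq, EmbeddingLike.apply_eq_iff_eq]

lemma rooted (p q : Fin t × Fin 18) : RootedIso (joinGraph t) 1 p q := by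
  refine ⟨⟨⟨fun z => ⟨mp p q z.1, mp_mem p q z.1 z.2⟩, fun z => ⟨mp q p z.1, mp_mem q p z.1 z.2⟩,
    fun z => Subtype.ext (mp_mp p q z.1 z.2), fun z => Subtype.ext (mp_mp q p z.1 z.2)⟩, ?_⟩, ?_⟩
  · intro a b
    exact mp_adj p q a.1 b.1 a.2 b.2
  · intro x hx
    change mp p q x.1 = q
    rw [hx]
    unfold mp
    rw [if_pos rfl]
    exact Prod.ext rfl (phi_root _ _)

/-! ### Not vertex transitive -/

/-- common non-neighbours in `G` -/
def CN {V : Type*} (G : SimpleGraph V) (x u : V) : Set V :=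
  {w | (w ≠ x ∧ ¬ G.Adj x w) ∧ (w ≠ u ∧ ¬ G.Adj u w)}

lemma CN_image {V : Type*} (G : SimpleGraph V) (φ : G ≃g G) (x u : V) :
    CN G (φ x) (φ u) = φ '' CN G x u := by
  ext w
  constructor
  · rintro ⟨⟨h1, h2⟩, h3, h4⟩
    refine ⟨φ.symm w, ⟨⟨?_, ?_⟩, ?_, ?_⟩, φ.apply_symm_apply w⟩
    · rintro rfl; exact h1 (φ.apply_symm_apply w).symm
    · intro h; exact h2 (by
        have := φ.map_adj_iff.mpr h
        rwa [φ.apply_symm_apply] at this)
    · rintro rfl; exact h3 (φ.apply_symm_apply w).symm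
    · intro h; exact h4 (by
        have := φ.map_adj_iff.mpr h
        rwa [φ.apply_symm_apply] at this)
  · rintro ⟨v, ⟨⟨h1, h2⟩, h3, h4⟩, rfl⟩
    refine ⟨⟨fun h => h1 (φ.injective h), fun h => h2 (φ.map_adj_iff.mp h)⟩,
      fun h => h3 (φ.injective h), fun h => h4 (φ.map_adj_iff.mp h)⟩

lemma nonadj_iff (p q : Fin t × Fin 18) :
    (q ≠ p ∧ ¬ (joinGraph t).Adj p q) ↔ q.1 = p.1 ∧ nb p.2 q.2 = false := by
  rw [adj_iff]
  unfold nb
  rw [Bool.or_eq_false_iff, beq_eq_false_iff_ne, not_or, not_not, Bool.not_eq_true]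
  constructor
  · rintro ⟨h1, h2, h3⟩
    exact ⟨h2.symm, fun hh => h1 (Prod.ext h2.symm hh.symm), h3⟩
  · rintro ⟨h1, h2, h3⟩
    exact ⟨fun hh => h2 (by rw [hh]), h1.symm, h3⟩

lemma CN_card (i : Fin t) (x u : Fin 18) :
    (CN (joinGraph t) (i, x) (i, u)).ncard = (cn x u).card := by
  classical
  have h1 : CN (joinGraph t) (i, x) (i, u)
      = ((cn x u).image fun z => (i, z) : Finset (Fin t × Fin 18)) := by
    ext ⟨l, z⟩
    unfold CN
    rw [Set.mem_ofPred_eq, nonadj_iff, nonadj_iff]
    simp only [cn, Finset.coe_image, Finset.coe_filter, Finset.mem_univ, true_and, Set.mem_image,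
      Set.mem_ofPred_eq, Prod.mk.injEq]
    constructor
    · rintro ⟨⟨h1, h2⟩, -, h4⟩; exact ⟨z, ⟨h2, h4⟩, h1.symm, rfl⟩
    · rintro ⟨a, ⟨h1, h2⟩, h3, rfl⟩; exact ⟨⟨h3.symm, h1⟩, h3.symm, h2⟩
  rw [h1, Set.ncard_coe_finset, Finset.card_image_of_injective _ (fun a b h => by simpa using h)]

lemma not_transitive (ht : 0 < t) : ¬ VertexTransitive (joinGraph t) := by
  intro h
  let i : Fin t := ⟨0, ht⟩
  obtain ⟨φ, hφ⟩ := h (i, 0) (i, 9)
  -- the vertex `(i,13)` and its preimage
  have h13 : ((i, 13) : Fin t × Fin 18) ≠ (i, 9) ∧ ¬ (joinGraph t).Adj (i, 9) (i, 13) :=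
    (nonadj_iff (i, 9) (i, 13)).mpr ⟨rfl, cn_nine.1⟩
  set u := φ.symm (i, 13) with hu
  have hu' : φ u = (i, 13) := φ.apply_symm_apply _
  have h1 : u ≠ (i, 0) ∧ ¬ (joinGraph t).Adj (i, 0) u := by
    refine ⟨fun hh => h13.1 ?_, fun hh => h13.2 ?_⟩
    · rw [← hu', hh, hφ]
    · have := φ.map_adj_iff.mpr hh
      rwa [hφ, hu'] at this
  obtain ⟨h2, h3⟩ := (nonadj_iff (i, 0) u).mp h1
  have h4 : u = (i, u.2) := Prod.ext h2 rfl
  have h5 := CN_image (joinGraph t) φ (i, 0) u
  rw [hφ, hu'] at h5
  have h6 : (CN (joinGraph t) (i, 9) (i, 13)).ncard = (CN (joinGraph t) (i, 0) u).ncard := by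
    rw [h5, Set.ncard_image_of_injective _ φ.injective]
  rw [h4, CN_card, CN_card, cn_nine.2] at h6
  exact cn_zero u.2 h3 h6.symm

/-! ### Diameter -/

lemma edist_le_two (p q : Fin t × Fin 18) : (joinGraph t).edist p q ≤ 2 := by
  by_cases h : p = q
  · rw [h, SimpleGraph.edist_self]; exact bot_le
  by_cases h2 : (joinGraph t).Adj p q
  · exact (SimpleGraph.edist_eq_one_iff_adj.mpr h2).le.trans (by norm_num)
  obtain ⟨h3, h4⟩ := (nonadj_iff p q).mp ⟨fun hh => h hh.symm, h2⟩
  obtain ⟨z, hz1, hz2⟩ := common _ _ h4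
  have a1 : (joinGraph t).Adj p (p.1, z) := Or.inr hz1
  have a2 : (joinGraph t).Adj (p.1, z) q := Or.inr hz2
  have := (SimpleGraph.Walk.cons a1 (SimpleGraph.Walk.cons a2 SimpleGraph.Walk.nil)).edist_le
  simpa using this

lemma ediam_eq_two (ht : 0 < t) : (joinGraph t).ediam = 2 := by
  refine le_antisymm (SimpleGraph.ediam_le_of_edist_le edist_le_two) ?_
  let i : Fin t := ⟨0, ht⟩
  have h13 := (nonadj_iff (i, 9) (i, 13)).mpr ⟨rfl, cn_nine.1⟩
  have h1 : ¬ (joinGraph t).edist (i, 9) (i, 13) ≤ 1 := by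
    rw [edist_le_one_iff]
    rintro (h | h)
    · exact h13.1 h.symm
    · exact h13.2 h
  have h2 : (2 : ℕ∞) ≤ (joinGraph t).edist (i, 9) (i, 13) := by
    have := Order.add_one_le_of_lt (not_le.mp h1)
    rwa [one_add_one_eq_two] at this
  exact h2.trans SimpleGraph.edist_le_ediam

/-- **Uniform `k`-balls with `n/2 < k < n` do not force vertex transitivity**, not even when `k/n` is
arbitrarily close to `1` and the radius of the balls is `diam - 1`. For every `ε > 0` there are `n`,
`k` with `n/2 < k < n` and `(1-ε) n ≤ k`, and a connected graph on `n` vertices of diameter `2` all of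
whose balls of radius `1` have `k` vertices and are pairwise isomorphic as rooted graphs (so that it
has uniform `k`-balls), which is not vertex transitive. -/
theorem result :
    ∀ ε : ℝ, 0 < ε → ∃ (n k : ℕ) (V : Type) (_ : Fintype V) (G : SimpleGraph V),
      Fintype.card V = n ∧ (n : ℝ) / 2 < k ∧ k < n ∧ (1 - ε) * n ≤ k ∧
      G.Connected ∧ G.ediam = 2 ∧ UniformBallsOfRadius G 1 k ∧ UniformBalls G k ∧
      ¬ VertexTransitive G := by
  intro ε hε
  obtain ⟨s, hs⟩ := exists_nat_gt (1 / ε)
  set t := s + 1 with ht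
  have ht0 : 0 < t := Nat.succ_pos s
  have hUB : UniformBallsOfRadius (joinGraph t) 1 (18 * t - 8) := ⟨ball_ncard, rooted⟩
  have hk : ((18 * t - 8 : ℕ) : ℝ) = 18 * (t : ℝ) - 8 := by
    rw [Nat.cast_sub (by omega)]; push_cast; ring
  have ht1 : (1 : ℝ) ≤ (t : ℝ) := by exact_mod_cast ht0
  have hte : 1 ≤ (t : ℝ) * ε := by
    have h1 : 1 / ε < (t : ℝ) := by rw [ht]; push_cast; linarith
    rw [div_lt_iff₀ hε] at h1
    exact h1.le
  have hne : Nonempty (Fin t × Fin 18) := ⟨(⟨0, ht0⟩, 0)⟩
  refine ⟨18 * t, 18 * t - 8, Fin t × Fin 18, inferInstance, joinGraph t, ?_, ?_, ?_, ?_, ?_,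
    ediam_eq_two ht0, hUB, ⟨1, hUB⟩, not_transitive ht0⟩
  · simp [Fintype.card_prod, mul_comm]
  · rw [hk]; push_cast; linarith
  · omega
  · rw [hk]; push_cast; nlinarith
  · refine SimpleGraph.connected_of_ediam_ne_top ?_
    rw [ediam_eq_two ht0]
    exact ENat.natCast_ne_top 2

end Pool.Agent.Results.MP_409260_co.NotTransitive
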